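import Pool.Agent.TH137.TB.Core

set_option autoImplicit false

open Finset

namespace Pool.Agent.TH137.TB

open Pool.Agent.Results.MP_a2a8ea_mp.ExpLower

variable {D : ℕ}

lemma allFill_of_fillable {T : Fin D → Fin D → Fin D → Fin D → Prop} {N : ℕ}
    (h : ∀ b, Fillable T N b) : AllFill T N := by
  intro L R B U
  obtain ⟨e, hb, hv⟩ := h (fun j => L j, fun j => R j, fun i => U i, fun i => B i)
  have hL : ∀ y : Fin N, e.1 0 y = L y := fun y => congrFun (congrArg Prod.fst hb) y
  have hR : ∀ y : Fin N, e.1 (Fin.last N) y = R y :=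
    fun y => congrFun (congrArg (fun x => x.2.1) hb) y
  have hU : ∀ x : Fin N, e.2 x (Fin.last N) = U x :=
    fun x => congrFun (congrArg (fun x => x.2.2.1) hb) x
  have hB : ∀ x : Fin N, e.2 x 0 = B x :=
    fun x => congrFun (congrArg (fun x => x.2.2.2) hb) x
  refine ⟨fun x y => if h : x < N + 1 ∧ y < N then e.1 ⟨x, h.1⟩ ⟨y, h.2⟩ else L 0,
    fun x y => if h : x < N ∧ y < N + 1 then e.2 ⟨x, h.1⟩ ⟨y, h.2⟩ else L 0, ?_, ?_, ?_, ?_, ?_⟩
  · intro y hy
    simp only [hy, Nat.zero_lt_succ, and_self, dif_pos]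
    exact hL ⟨y, hy⟩
  · intro y hy
    simp only [hy, Nat.lt_succ_self, and_self, dif_pos]
    exact hR ⟨y, hy⟩
  · intro x hx
    simp only [hx, Nat.zero_lt_succ, and_self, dif_pos]
    exact hB ⟨x, hx⟩
  · intro x hx
    simp only [hx, Nat.lt_succ_self, and_self, dif_pos]
    exact hU ⟨x, hx⟩
  · intro x hx y hy
    have h1 : x < N + 1 := by omega
    have h2 : x + 1 < N + 1 := by omega
    have h3 : y + 1 < N + 1 := by omega
    have h4 : y < N + 1 := by omega
    simp only [hx, hy, h1, h2, h3, h4, and_self, dif_pos]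
    exact hv ⟨x, hx⟩ ⟨y, hy⟩

lemma fillable_of_allFill {T : Fin D → Fin D → Fin D → Fin D → Prop} {n : ℕ} (hn : 1 ≤ n)
    (h : AllFill T n) (b : Bdry D n) : Fillable T n b := by
  obtain ⟨L, R, U, B⟩ := b
  obtain ⟨H, V, h1, h2, h3, h4, h5⟩ := h
    (fun y => if hy : y < n then L ⟨y, hy⟩ else L ⟨0, hn⟩)
    (fun y => if hy : y < n then R ⟨y, hy⟩ else L ⟨0, hn⟩)
    (fun y => if hy : y < n then B ⟨y, hy⟩ else L ⟨0, hn⟩)
    (fun y => if hy : y < n then U ⟨y, hy⟩ else L ⟨0, hn⟩)
  refine ⟨(fun a j => H a j, fun i a => V i a), ?_, fun i j => h5 i i.isLt j j.isLt⟩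
  unfold bd
  refine Prod.ext ?_ (Prod.ext ?_ (Prod.ext ?_ ?_))
  · funext j
    have := h1 j j.isLt
    simpa using this
  · funext j
    have := h2 j j.isLt
    simpa using this
  · funext j
    have := h4 j j.isLt
    simpa using this
  · funext j
    have := h3 j j.isLt
    simpa using this

lemma allFill_of_normal {T : Fin D → Fin D → Fin D → Fin D → Prop} (h : IsNormal (tens T)) :
    ∃ N, 1 ≤ N ∧ AllFill T N := by
  obtain ⟨N, hN, hi⟩ := h
  refine ⟨N, hN, allFill_of_fillable ?_⟩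
  intro b
  by_contra hb
  exact not_inj_of_not_fillable T b hb hi

lemma index_le {T : Fin D → Fin D → Fin D → Fin D → Prop} {n : ℕ} (hn : 1 ≤ n)
    (h : AllFill T n) : injIndex (tens T) ≤ n :=
  Nat.sInf_le ⟨hn, inj_of_fillable T hn (fillable_of_allFill hn h)⟩

/-- the index bound from a free rectangle -/
theorem index_le_of_free {T : Fin D → Fin D → Fin D → Fin D → Prop} (h : IsNormal (tens T))
    (p j : ℕ) (hj : 2 ^ D ≤ j) (ys zs : ℕ → Fin D)
    (hs : ∀ L R : ℕ → Fin D, Fill T p j L R zs ys) :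
    injIndex (tens T) ≤ max (p + 2 ^ D) (j + 2 * 2 ^ D) := by
  obtain ⟨N, hN, hf⟩ := allFill_of_normal h
  have h1 : 1 ≤ 2 ^ D := Nat.one_le_two_pow
  exact index_le (by omega) (fill_of_free hN hf p j hj ys zs hs _ (le_max_left _ _)
    (le_max_right _ _))

/-- a vacuum colour gives free `1 × j` rectangles -/
lemma free_of_vacuum {T : Fin D → Fin D → Fin D → Fin D → Prop} (c : Fin D)
    (hc : ∀ l r, T l r c c) (j : ℕ) (L R : ℕ → Fin D) :
    Fill T 1 j L R (fun _ => c) (fun _ => c) := by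
  refine ⟨fun x y => if x = 0 then L y else R y, fun _ _ => c, fun _ _ => by simp,
    fun _ _ => by simp, fun _ _ => rfl, fun _ _ => rfl, ?_⟩
  intro x hx y _
  exact hc _ _

theorem vacuum_bound {T : Fin D → Fin D → Fin D → Fin D → Prop} (h : IsNormal (tens T))
    (c : Fin D) (hc : ∀ l r, T l r c c) : injIndex (tens T) ≤ 3 * 2 ^ D := by
  have h1 := index_le_of_free h 1 (2 ^ D) le_rfl (fun _ => c) (fun _ => c)
    (fun L R => free_of_vacuum c hc _ L R)
  have h2 : 1 ≤ 2 ^ D := Nat.one_le_two_pow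
  omega

/-! ### cutting the width of a free rectangle -/

lemma splitH {T : Fin D → Fin D → Fin D → Fin D → Prop} {a c j : ℕ} {L R B U : ℕ → Fin D}
    (h : Fill T (a + c) j L R B U) :
    ∃ M, Fill T a j L M B U ∧ Fill T c j M R (fun x => B (a + x)) (fun x => U (a + x)) := by
  obtain ⟨H, V, h1, h2, h3, h4, h5⟩ := h
  refine ⟨fun y => H a y, ⟨H, V, h1, fun _ _ => rfl, fun x hx => h3 x (by omega),
    fun x hx => h4 x (by omega), fun x hx y hy => h5 x (by omega) y hy⟩,
    ⟨fun x y => H (a + x) y, fun x y => V (a + x) y, fun _ _ => rfl, fun y hy => h2 y hy,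
    fun x hx => h3 _ (by omega), fun x hx => h4 _ (by omega),
    fun x hx y hy => h5 (a + x) (by omega) y hy⟩⟩

def ext (c : Fin D) {j : ℕ} (f : Fin j → Fin D) : ℕ → Fin D :=
  fun y => if h : y < j then f ⟨y, h⟩ else c

lemma ext_res (c : Fin D) {j : ℕ} (f : ℕ → Fin D) (y : ℕ) (hy : y < j) :
    ext c (fun i : Fin j => f i) y = f y := by
  unfold ext; simp [hy]

lemma cut {T : Fin D → Fin D → Fin D → Fin D → Prop} (c : Fin D) (j : ℕ) (p : ℕ) :
    ∀ ys zs : ℕ → Fin D, (∀ L R : ℕ → Fin D, Fill T p j L R zs ys) →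
      ∃ p' ≤ 2 ^ (D ^ j * D ^ j), ∃ ys' zs' : ℕ → Fin D,
        ∀ L R : ℕ → Fin D, Fill T p' j L R zs' ys' := by
  classical
  induction p using Nat.strong_induction_on with
  | _ p ih =>
    intro ys zs hs
    by_cases hp : p ≤ 2 ^ (D ^ j * D ^ j)
    · exact ⟨p, hp, ys, zs, hs⟩
    · push Not at hp
      let Rel : ℕ → Finset ((Fin j → Fin D) × (Fin j → Fin D)) := fun k =>
        univ.filter (fun q => Fill T k j (ext c q.1) (ext c q.2) zs ys)
      have hcard : Fintype.card (Finset ((Fin j → Fin D) × (Fin j → Fin D))) <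
          Fintype.card (Fin (p + 1)) := by
        rw [Fintype.card_finset, Fintype.card_prod, Fintype.card_fun, Fintype.card_fin,
          Fintype.card_fin, Fintype.card_fin]
        omega
      obtain ⟨a', b', hne', heq'⟩ :=
        Fintype.exists_ne_map_eq_of_card_lt (fun m : Fin (p + 1) => Rel m.val) hcard
      obtain ⟨a, b, hab, hbp, heq⟩ : ∃ a b, a < b ∧ b ≤ p ∧ Rel a = Rel b := by
        rcases lt_or_gt_of_ne (fun h => hne' (Fin.ext h) : a'.val ≠ b'.val) with h | h
        · exact ⟨a', b', h, by omega, heq'⟩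
        · exact ⟨b', a', h, by omega, heq'.symm⟩
      apply ih (a + (p - b)) (by omega) (cat a ys (fun x => ys (b + x)))
        (cat a zs (fun x => zs (b + x)))
      intro L R
      have h1 := hs L R
      rw [show p = b + (p - b) by omega] at h1
      obtain ⟨M, hM1, hM2⟩ := splitH h1
      have h2 : ((fun i : Fin j => L i), (fun i : Fin j => M i)) ∈ Rel b := by
        simp only [Rel, mem_filter, mem_univ, true_and]
        exact hM1.congr (fun y hy => (ext_res c L y hy).symm)
          (fun y hy => (ext_res c M y hy).symm) (fun _ _ => rfl) (fun _ _ => rfl)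
      rw [← heq] at h2
      simp only [Rel, mem_filter, mem_univ, true_and] at h2
      have h3 : Fill T a j L M zs ys := h2.congr (fun y hy => ext_res c L y hy)
        (fun y hy => ext_res c M y hy) (fun _ _ => rfl) (fun _ _ => rfl)
      exact glueH h3 hM2

/-- explicit bound, depending on `D` and the height `j` only -/
theorem explicit_bound {T : Fin D → Fin D → Fin D → Fin D → Prop} (h : IsNormal (tens T))
    (hD : 1 ≤ D) (p j : ℕ) (hj : 2 ^ D ≤ j) (ys zs : ℕ → Fin D)
    (hs : ∀ L R : ℕ → Fin D, Fill T p j L R zs ys) :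
    injIndex (tens T) ≤ 2 ^ (D ^ (2 * j)) + j + 2 * 2 ^ D := by
  obtain ⟨p', hp', ys', zs', hs'⟩ := cut ⟨0, hD⟩ j p ys zs hs
  have h1 := index_le_of_free h p' j hj ys' zs' hs'
  have h2 : D ^ j * D ^ j = D ^ (2 * j) := by rw [← pow_add]; congr 1; ring
  rw [h2] at hp'
  omega

end Pool.Agent.TH137.TB
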