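import Pool.Agent.Results.MP_a2a8ea_mp.ExpLower

set_option autoImplicit false

open Finset

namespace Pool.Agent.TH137.TB

open Pool.Agent.Results.MP_a2a8ea_mp.ExpLower

variable {D : ℕ}

/-- The `w × h` rectangle can be tiled by `T` with the words `L`, `R`, `B`, `U` on its left, right,
bottom and upper side. -/
def Fill (T : Fin D → Fin D → Fin D → Fin D → Prop) (w h : ℕ) (L R B U : ℕ → Fin D) : Prop :=
  ∃ H V : ℕ → ℕ → Fin D, (∀ y < h, H 0 y = L y) ∧ (∀ y < h, H w y = R y) ∧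
    (∀ x < w, V x 0 = B x) ∧ (∀ x < w, V x h = U x) ∧
    ∀ x < w, ∀ y < h, T (H x y) (H (x + 1) y) (V x (y + 1)) (V x y)

def tr (T : Fin D → Fin D → Fin D → Fin D → Prop) : Fin D → Fin D → Fin D → Fin D → Prop :=
  fun l r u d => T d u r l

lemma Fill.tr {T : Fin D → Fin D → Fin D → Fin D → Prop} {w h : ℕ} {L R B U : ℕ → Fin D}
    (hf : Fill T w h L R B U) : Fill (TB.tr T) h w B U L R := by
  obtain ⟨H, V, h1, h2, h3, h4, h5⟩ := hf
  exact ⟨fun x y => V y x, fun x y => H y x, h3, h4, h1, h2, fun x hx y hy => h5 y hy x hx⟩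

lemma Fill.untr {T : Fin D → Fin D → Fin D → Fin D → Prop} {w h : ℕ} {L R B U : ℕ → Fin D}
    (hf : Fill (TB.tr T) w h L R B U) : Fill T h w B U L R := by
  obtain ⟨H, V, h1, h2, h3, h4, h5⟩ := hf
  exact ⟨fun x y => V y x, fun x y => H y x, h3, h4, h1, h2, fun x hx y hy => h5 y hy x hx⟩

lemma Fill.congr {T : Fin D → Fin D → Fin D → Fin D → Prop} {w h : ℕ}
    {L R B U L' R' B' U' : ℕ → Fin D} (hf : Fill T w h L R B U)
    (hL : ∀ y < h, L y = L' y) (hR : ∀ y < h, R y = R' y) (hB : ∀ x < w, B x = B' x)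
    (hU : ∀ x < w, U x = U' x) : Fill T w h L' R' B' U' := by
  obtain ⟨H, V, h1, h2, h3, h4, h5⟩ := hf
  exact ⟨H, V, fun y hy => (h1 y hy).trans (hL y hy), fun y hy => (h2 y hy).trans (hR y hy),
    fun x hx => (h3 x hx).trans (hB x hx), fun x hx => (h4 x hx).trans (hU x hx), h5⟩

/-- concatenation of words -/
def cat (k : ℕ) (f g : ℕ → Fin D) : ℕ → Fin D := fun x => if x < k then f x else g (x - k)

lemma glueH {T : Fin D → Fin D → Fin D → Fin D → Prop} {w1 w2 h : ℕ}
    {L M R B1 U1 B2 U2 : ℕ → Fin D} (h1 : Fill T w1 h L M B1 U1) (h2 : Fill T w2 h M R B2 U2) :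
    Fill T (w1 + w2) h L R (cat w1 B1 B2) (cat w1 U1 U2) := by
  obtain ⟨H1, V1, a1, a2, a3, a4, a5⟩ := h1
  obtain ⟨H2, V2, b1, b2, b3, b4, b5⟩ := h2
  have key : ∀ x2 : ℕ, ∀ y < h, (if w1 + x2 ≤ w1 then H1 (w1 + x2) y else H2 (w1 + x2 - w1) y)
      = H2 x2 y := by
    intro x2 y hy
    rcases Nat.eq_zero_or_pos x2 with h0 | h0
    · subst h0
      simp only [add_zero, le_refl, if_true]
      rw [a2 y hy, b1 y hy]
    · rw [if_neg (by omega)]
      congr 1
      omega
  refine ⟨fun x y => if x ≤ w1 then H1 x y else H2 (x - w1) y,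
    fun x y => if x < w1 then V1 x y else V2 (x - w1) y, ?_, ?_, ?_, ?_, ?_⟩
  · intro y hy
    simp only [Nat.zero_le, if_true]
    exact a1 y hy
  · intro y hy
    have := key w2 y hy
    simp only at this ⊢
    rw [this]
    exact b2 y hy
  · intro x hx
    unfold cat
    by_cases hx1 : x < w1
    · simp only [hx1, if_true]; exact a3 x hx1
    · simp only [hx1, if_false]; exact b3 _ (by omega)
  · intro x hx
    unfold cat
    by_cases hx1 : x < w1
    · simp only [hx1, if_true]; exact a4 x hx1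
    · simp only [hx1, if_false]; exact b4 _ (by omega)
  · intro x hx y hy
    by_cases hx1 : x < w1
    · have e1 : x ≤ w1 := by omega
      have e2 : x + 1 ≤ w1 := by omega
      simp only [hx1, e1, e2, if_true]
      exact a5 x hx1 y hy
    · obtain ⟨x2, rfl⟩ : ∃ x2, x = w1 + x2 := ⟨x - w1, by omega⟩
      have k1 := key x2 y hy
      have k2 := key (x2 + 1) y hy
      simp only [hx1, if_false]
      rw [show w1 + x2 + 1 = w1 + (x2 + 1) by ring]
      rw [k1, k2, show w1 + x2 - w1 = x2 by omega]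
      exact b5 x2 (by omega) y hy

lemma glueV {T : Fin D → Fin D → Fin D → Fin D → Prop} {w h1 h2 : ℕ}
    {L1 R1 L2 R2 B M U : ℕ → Fin D} (f1 : Fill T w h1 L1 R1 B M) (f2 : Fill T w h2 L2 R2 M U) :
    Fill T w (h1 + h2) (cat h1 L1 L2) (cat h1 R1 R2) B U :=
  (glueH f1.tr f2.tr).untr

lemma cat_shift (k : ℕ) (f : ℕ → Fin D) (x : ℕ) : cat k f (fun y => f (k + y)) x = f x := by
  unfold cat
  split_ifs with h
  · rfl
  · show f (k + (x - k)) = f x
    rw [show k + (x - k) = x by omega]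

/-! ### the pumping argument -/

section pump

variable {A : Type} (P : A → Fin D → Fin D → Prop)

open Classical in
noncomputable def St (w : ℕ → A) (i : Fin D) : ℕ → Finset (Fin D)
  | 0 => {i}
  | k + 1 => univ.filter (fun r => ∃ m ∈ St w i k, P (w k) m r)

def Path (w : ℕ → A) (n : ℕ) (i k : Fin D) : Prop :=
  ∃ p : ℕ → Fin D, p 0 = i ∧ p n = k ∧ ∀ a < n, P (w a) (p a) (p (a + 1))

lemma mem_St (w : ℕ → A) (i : Fin D) (n : ℕ) (k : Fin D) : k ∈ St P w i n ↔ Path P w n i k := by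
  induction n generalizing k with
  | zero =>
    constructor
    · intro h
      simp only [St, mem_singleton] at h
      exact ⟨fun _ => i, rfl, h.symm, fun a ha => by omega⟩
    · rintro ⟨p, h0, h1, _⟩
      simp only [St, mem_singleton]
      rw [← h1, h0]
  | succ n ih =>
    constructor
    · intro h
      simp only [St, mem_filter, mem_univ, true_and] at h
      obtain ⟨m, hm, hP⟩ := h
      obtain ⟨p, hp0, hpk, hp⟩ := (ih m).mp hm
      refine ⟨fun a => if a ≤ n then p a else k, by simpa using hp0, by simp, ?_⟩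
      intro a ha
      by_cases hak : a = n
      · subst hak
        simp only [le_refl, if_true, Nat.not_succ_le_self, if_false]
        rw [hpk]; exact hP
      · have h1 : a < n := by omega
        have h2 : a + 1 ≤ n := by omega
        simp only [h1.le, if_true, h2]
        exact hp a h1
    · rintro ⟨p, h0, h1, h2⟩
      simp only [St, mem_filter, mem_univ, true_and]
      refine ⟨p n, (ih _).mpr ⟨p, h0, rfl, fun a ha => h2 a (by omega)⟩, ?_⟩
      rw [← h1]
      exact h2 n (by omega)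

lemma pump (N : ℕ) (hN : 1 ≤ N) (hfull : ∀ w i k, Path P w N i k) (n : ℕ) (hn : 2 ^ D ≤ n)
    (w : ℕ → A) (i k : Fin D) : Path P w n i k := by
  classical
  by_contra hc
  have hne : St P w i n ≠ univ := by
    intro h
    exact hc ((mem_St P w i n k).mp (h ▸ mem_univ k))
  have hstep : ∀ m, St P w i m = univ → St P w i (m + 1) = univ := by
    intro m hm
    apply Finset.eq_univ_of_forall
    intro r
    obtain ⟨p, _, hp1, hp2⟩ := hfull (fun _ => w m) r r
    simp only [St, mem_filter, mem_univ, true_and]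
    refine ⟨p (N - 1), by rw [hm]; exact mem_univ _, ?_⟩
    have := hp2 (N - 1) (by omega)
    rw [show N - 1 + 1 = N by omega, hp1] at this
    exact this
  have hall : ∀ m ≤ n, St P w i m ≠ univ := by
    intro m hm h
    apply hne
    clear hne hc
    induction n, hm using Nat.le_induction with
    | base => exact h
    | succ n' hn' ih =>
      apply hstep
      exact Nat.le_induction (m := m) (P := fun t _ => St P w i t = univ) h
        (fun t _ ht => hstep t ht) n' hn'
  obtain ⟨a, b, hab, hSab⟩ : ∃ a b, a < b ∧ b ≤ n ∧ St P w i a = St P w i b := by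
    have hcard : Fintype.card (Finset (Fin D)) < Fintype.card (Fin (n + 1)) := by
      rw [Fintype.card_finset, Fintype.card_fin, Fintype.card_fin]
      omega
    obtain ⟨a, b, hne', heq⟩ :=
      Fintype.exists_ne_map_eq_of_card_lt (fun m : Fin (n + 1) => St P w i m.val) hcard
    rcases lt_or_gt_of_ne (fun h => hne' (Fin.ext h) : a.val ≠ b.val) with h | h
    · exact ⟨a, b, h, by omega, heq⟩
    · exact ⟨b, a, h, by omega, heq.symm⟩
  obtain ⟨hbn, hSab⟩ := hSab
  let idx : ℕ → ℕ := fun m => Nat.rec 0 (fun _ t => if t + 1 = b then a else t + 1) m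
  have i0 : idx 0 = 0 := rfl
  have i1 : ∀ m, idx (m + 1) = if idx m + 1 = b then a else idx m + 1 := fun m => rfl
  have ilt : ∀ m, idx m < b := by
    intro m
    induction m with
    | zero => rw [i0]; omega
    | succ m ih =>
      rw [i1]
      split_ifs with h
      · exact hab
      · omega
  have hS : ∀ m, St P (fun t => w (idx t)) i m = St P w i (idx m) := by
    intro m
    induction m with
    | zero => rw [i0]; rfl
    | succ m ih =>
      have e1 : St P (fun t => w (idx t)) i (m + 1) = St P w i (idx m + 1) := by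
        simp only [St]
        rw [ih]
      rw [e1, i1]
      split_ifs with h
      · rw [h, hSab]
      · rfl
  apply hall (idx N) (by have := ilt N; omega)
  rw [← hS]
  apply Finset.eq_univ_of_forall
  intro r
  exact (mem_St P _ i N r).mpr (hfull _ i r)

end pump

/-! ### three-sided completions -/

/-- all boundary words of the `N × N` square are fillable -/
def AllFill (T : Fin D → Fin D → Fin D → Fin D → Prop) (N : ℕ) : Prop :=
  ∀ L R B U : ℕ → Fin D, Fill T N N L R B U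

lemma AllFill.tr {T : Fin D → Fin D → Fin D → Fin D → Prop} {N : ℕ} (h : AllFill T N) :
    AllFill (TB.tr T) N := fun L R B U => (h B U L R).tr

lemma rowTop {T : Fin D → Fin D → Fin D → Fin D → Prop} {N : ℕ} (hN : 1 ≤ N)
    (hf : AllFill T N) (n : ℕ) (hn : 2 ^ D ≤ n) (i k : Fin D) (U : ℕ → Fin D) :
    ∃ B, Fill T n 1 (fun _ => i) (fun _ => k) B U := by
  have hfull : ∀ (w : ℕ → Fin D) (i k : Fin D),
      Path (fun u l r => ∃ d, T l r u d) w N i k := by
    intro w i k
    obtain ⟨H, V, h1, h2, h3, h4, h5⟩ := hf (fun _ => i) (fun _ => k) w w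
    refine ⟨fun a => H a (N - 1), h1 _ (by omega), h2 _ (by omega), ?_⟩
    intro a ha
    have := h5 a ha (N - 1) (by omega)
    rw [show N - 1 + 1 = N by omega, h4 a ha] at this
    exact ⟨_, this⟩
  obtain ⟨p, p0, p1, p2⟩ := pump _ N hN hfull n hn U i k
  have hd : ∀ a, ∃ d, a < n → T (p a) (p (a + 1)) (U a) d := by
    intro a
    by_cases ha : a < n
    · obtain ⟨d, hd⟩ := p2 a ha
      exact ⟨d, fun _ => hd⟩
    · exact ⟨i, fun h => absurd h ha⟩
  choose d hd using hd
  refine ⟨d, fun x _ => p x, fun x y => if y = 0 then d x else U x, fun y _ => p0, fun y _ => p1,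
    fun x _ => by simp, fun x _ => by simp, ?_⟩
  intro x hx y hy
  obtain rfl : y = 0 := by omega
  simpa using hd x hx

lemma rowBot {T : Fin D → Fin D → Fin D → Fin D → Prop} {N : ℕ} (hN : 1 ≤ N)
    (hf : AllFill T N) (n : ℕ) (hn : 2 ^ D ≤ n) (i k : Fin D) (B : ℕ → Fin D) :
    ∃ U, Fill T n 1 (fun _ => i) (fun _ => k) B U := by
  have hfull : ∀ (w : ℕ → Fin D) (i k : Fin D),
      Path (fun d l r => ∃ u, T l r u d) w N i k := by
    intro w i k
    obtain ⟨H, V, h1, h2, h3, h4, h5⟩ := hf (fun _ => i) (fun _ => k) w w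
    refine ⟨fun a => H a 0, h1 _ (by omega), h2 _ (by omega), ?_⟩
    intro a ha
    have := h5 a ha 0 (by omega)
    rw [h3 a ha] at this
    exact ⟨_, this⟩
  obtain ⟨p, p0, p1, p2⟩ := pump _ N hN hfull n hn B i k
  have hd : ∀ a, ∃ u, a < n → T (p a) (p (a + 1)) u (B a) := by
    intro a
    by_cases ha : a < n
    · obtain ⟨d, hd⟩ := p2 a ha
      exact ⟨d, fun _ => hd⟩
    · exact ⟨i, fun h => absurd h ha⟩
  choose d hd using hd
  refine ⟨d, fun x _ => p x, fun x y => if y = 0 then B x else d x, fun y _ => p0, fun y _ => p1,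
    fun x _ => by simp, fun x _ => by simp, ?_⟩
  intro x hx y hy
  obtain rfl : y = 0 := by omega
  simpa using hd x hx

lemma cat_const (k : ℕ) (f : ℕ → Fin D) (y : ℕ) (hy : y < k + 1) :
    cat k f (fun _ => f k) y = f y := by
  unfold cat
  split_ifs with h
  · rfl
  · show f k = f y
    rw [show y = k by omega]

lemma stripTop {T : Fin D → Fin D → Fin D → Fin D → Prop} {N : ℕ} (hN : 1 ≤ N)
    (hf : AllFill T N) (w : ℕ) (hw : 2 ^ D ≤ w) (j : ℕ) (L R : ℕ → Fin D) :
    ∀ U : ℕ → Fin D, ∃ B, Fill T w j L R B U := by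
  induction j with
  | zero =>
    intro U
    exact ⟨U, fun _ y => L y, fun x _ => U x, fun y hy => by omega, fun y hy => by omega,
      fun _ _ => rfl, fun _ _ => rfl, fun x _ y hy => by omega⟩
  | succ j ih =>
    intro U
    obtain ⟨M, hM⟩ := rowTop hN hf w hw (L j) (R j) U
    obtain ⟨B, hB⟩ := ih M
    exact ⟨B, (glueV hB hM).congr (fun y hy => cat_const j L y hy) (fun y hy => cat_const j R y hy)
      (fun _ _ => rfl) (fun _ _ => rfl)⟩

lemma stripBot {T : Fin D → Fin D → Fin D → Fin D → Prop} {N : ℕ} (hN : 1 ≤ N)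
    (hf : AllFill T N) (w : ℕ) (hw : 2 ^ D ≤ w) (j : ℕ) (L R B : ℕ → Fin D) :
    ∃ U, Fill T w j L R B U := by
  induction j with
  | zero =>
    exact ⟨B, fun _ y => L y, fun x _ => B x, fun y hy => by omega, fun y hy => by omega,
      fun _ _ => rfl, fun _ _ => rfl, fun x _ y hy => by omega⟩
  | succ j ih =>
    obtain ⟨M, hM⟩ := ih
    obtain ⟨U, hU⟩ := rowBot hN hf w hw (L j) (R j) M
    exact ⟨U, (glueV hM hU).congr (fun y hy => cat_const j L y hy) (fun y hy => cat_const j R y hy)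
      (fun _ _ => rfl) (fun _ _ => rfl)⟩

lemma colRight {T : Fin D → Fin D → Fin D → Fin D → Prop} {N : ℕ} (hN : 1 ≤ N)
    (hf : AllFill T N) (h : ℕ) (hh : 2 ^ D ≤ h) (w : ℕ) (L B U : ℕ → Fin D) :
    ∃ R, Fill T w h L R B U := by
  obtain ⟨R, hR⟩ := stripBot hN hf.tr h hh w B U L
  exact ⟨R, hR.untr⟩

lemma colLeft {T : Fin D → Fin D → Fin D → Fin D → Prop} {N : ℕ} (hN : 1 ≤ N)
    (hf : AllFill T N) (h : ℕ) (hh : 2 ^ D ≤ h) (w : ℕ) (R B U : ℕ → Fin D) :
    ∃ L, Fill T w h L R B U := by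
  obtain ⟨L, hL⟩ := stripTop hN hf.tr h hh w B U R
  exact ⟨L, hL.untr⟩

/-! ### the three strips -/

lemma topStrip {T : Fin D → Fin D → Fin D → Fin D → Prop} {N : ℕ} (hN : 1 ≤ N)
    (hf : AllFill T N) (p w j : ℕ) (hw : 2 ^ D ≤ w) (hj : 2 ^ D ≤ j) (L R U ys : ℕ → Fin D) :
    ∃ Y2, Fill T (p + w) j L R (cat p ys Y2) U := by
  obtain ⟨M, hM⟩ := colRight hN hf j hj p L ys U
  obtain ⟨Y2, hY⟩ := stripTop hN hf w hw j M R (fun x => U (p + x))
  exact ⟨Y2, (glueH hM hY).congr (fun _ _ => rfl) (fun _ _ => rfl) (fun _ _ => rfl)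
    (fun x _ => cat_shift p U x)⟩

lemma botStrip {T : Fin D → Fin D → Fin D → Fin D → Prop} {N : ℕ} (hN : 1 ≤ N)
    (hf : AllFill T N) (p w j : ℕ) (hw : 2 ^ D ≤ w) (hj : 2 ^ D ≤ j) (L R B zs : ℕ → Fin D) :
    ∃ Z2, Fill T (p + w) j L R B (cat p zs Z2) := by
  obtain ⟨M, hM⟩ := colRight hN hf j hj p L B zs
  obtain ⟨Z2, hZ⟩ := stripBot hN hf w hw j M R (fun x => B (p + x))
  exact ⟨Z2, (glueH hM hZ).congr (fun _ _ => rfl) (fun _ _ => rfl)
    (fun x _ => cat_shift p B x) (fun _ _ => rfl)⟩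

lemma midStrip {T : Fin D → Fin D → Fin D → Fin D → Prop} {N : ℕ} (hN : 1 ≤ N)
    (hf : AllFill T N) (p w j : ℕ) (hj : 2 ^ D ≤ j) (ys zs Y2 Z2 : ℕ → Fin D)
    (hs : ∀ L R : ℕ → Fin D, Fill T p j L R zs ys) (L R : ℕ → Fin D) :
    Fill T (p + w) j L R (cat p zs Z2) (cat p ys Y2) := by
  obtain ⟨M, hM⟩ := colLeft hN hf j hj w R Z2 Y2
  exact glueH (hs L M) hM

/-- A free rectangle of height `j` and width `p` bounds the size of the squares. -/
theorem fill_of_free {T : Fin D → Fin D → Fin D → Fin D → Prop} {N : ℕ} (hN : 1 ≤ N)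
    (hf : AllFill T N) (p j : ℕ) (hj : 2 ^ D ≤ j) (ys zs : ℕ → Fin D)
    (hs : ∀ L R : ℕ → Fin D, Fill T p j L R zs ys) (n : ℕ) (h1 : p + 2 ^ D ≤ n)
    (h2 : j + 2 * 2 ^ D ≤ n) : AllFill T n := by
  intro L R B U
  obtain ⟨w, rfl⟩ : ∃ w, n = p + w := ⟨n - p, by omega⟩
  obtain ⟨j1, hj1⟩ : ∃ j1, p + w = 2 ^ D + j + j1 := ⟨p + w - (2 ^ D + j), by omega⟩
  obtain ⟨Y2, hY⟩ := topStrip hN hf p w j1 (by omega) (by omega)
    (fun y => L (2 ^ D + j + y)) (fun y => R (2 ^ D + j + y)) U ys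
  obtain ⟨Z2, hZ⟩ := botStrip hN hf p w (2 ^ D) (by omega) le_rfl L R B zs
  have hM := midStrip hN hf p w j hj ys zs Y2 Z2 hs (fun y => L (2 ^ D + y))
    (fun y => R (2 ^ D + y))
  have hA := (glueV hZ hM).congr (fun y _ => cat_shift (2 ^ D) L y)
    (fun y _ => cat_shift (2 ^ D) R y) (fun _ _ => rfl) (fun _ _ => rfl)
  have hB := (glueV hA hY).congr (fun y _ => cat_shift (2 ^ D + j) L y)
    (fun y _ => cat_shift (2 ^ D + j) R y) (fun _ _ => rfl) (fun _ _ => rfl)
  rw [← hj1] at hB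
  exact hB

end Pool.Agent.TH137.TB
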