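import Pool.Agent.TH137.TB.Iso

set_option autoImplicit false

open Finset

namespace Pool.Agent.TH137.TB

open Pool.Agent.Results.MP_a2a8ea_mp.ExpLower

variable {D : ℕ} {T : Fin D → Fin D → Fin D → Fin D → Prop} {N : ℕ}

def mir (T : Fin D → Fin D → Fin D → Fin D → Prop) : Fin D → Fin D → Fin D → Fin D → Prop :=
  fun l r u d => T r l u d

def rv (w : ℕ) (f : ℕ → Fin D) : ℕ → Fin D := fun x => f (w - 1 - x)

lemma Fill.mir {w h : ℕ} {L R B U : ℕ → Fin D} (hf : Fill T w h L R B U) :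
    Fill (TB.mir T) w h R L (rv w B) (rv w U) := by
  obtain ⟨H, V, h1, h2, h3, h4, h5⟩ := hf
  refine ⟨fun x y => H (w - x) y, fun x y => V (w - 1 - x) y, fun y hy => by simpa using h2 y hy,
    fun y hy => by simpa using h1 y hy, fun x hx => h3 _ (by omega), fun x hx => h4 _ (by omega),
    ?_⟩
  intro x hx y hy
  have := h5 (w - 1 - x) (by omega) y hy
  unfold TB.mir
  simp only
  rw [show w - (x + 1) = w - 1 - x by omega, show w - x = w - 1 - x + 1 by omega]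
  exact this

lemma rv_rv (w : ℕ) (f : ℕ → Fin D) (x : ℕ) (hx : x < w) : rv w (rv w f) x = f x := by
  unfold rv
  rw [show w - 1 - (w - 1 - x) = x by omega]

lemma AllFill.mir (hf : AllFill T N) : AllFill (TB.mir T) N := by
  intro L R B U
  exact (hf R L (rv N B) (rv N U)).mir.congr (fun _ _ => rfl) (fun _ _ => rfl)
    (fun x hx => rv_rv N B x hx) (fun x hx => rv_rv N U x hx)

lemma Fill.unmir {w h : ℕ} {L R B U : ℕ → Fin D} (hf : Fill (TB.mir T) w h L R B U) :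
    Fill T w h R L (rv w B) (rv w U) := hf.mir

lemma colFull (hN : 1 ≤ N) (hf : AllFill T N) {h : ℕ} (hh : 2 ^ D ≤ h) (c : Fin D)
    (ha : AllMg T h) : ∃ (n : ℕ) (U B x : ℕ → Fin D), ∀ z, Fill T n h z x B U := by
  classical
  have key : ∀ S : Finset (Fin h → Fin D), ∃ (n : ℕ) (U B x : ℕ → Fin D), ∀ q ∈ S,
      Fill T n h (ext c q) x B U := by
    intro S
    induction S using Finset.induction_on with
    | empty => exact ⟨0, fun _ => c, fun _ => c, fun _ => c, fun q hq => by simp at hq⟩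
    | insert q S hq ih =>
      obtain ⟨n, U, B, x, hx⟩ := ih
      obtain ⟨y, hy⟩ := colRight hN hf h hh n (ext c q) B U
      obtain ⟨n2, U2, B2, z, hz1, hz2⟩ := ha x y
      refine ⟨n + n2, cat n U U2, cat n B B2, z, ?_⟩
      intro q' hq'
      rcases Finset.mem_insert.mp hq' with rfl | hq'
      · exact glueH hy hz2
      · exact glueH (hx q' hq') hz1
  obtain ⟨n, U, B, x, hx⟩ := key univ
  refine ⟨n, U, B, x, fun z => ?_⟩
  exact (hx (fun i => z i) (mem_univ _)).congr (fun y hy => ext_res c z y hy) (fun _ _ => rfl)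
    (fun _ _ => rfl) (fun _ _ => rfl)

lemma free_of_allMg (hN : 1 ≤ N) (hf : AllFill T N) {h : ℕ} (hh : 2 ^ D ≤ h) (c : Fin D)
    (ha : AllMg T h) : ∃ (p : ℕ) (ys zs : ℕ → Fin D), ∀ L R : ℕ → Fin D, Fill T p h L R zs ys := by
  have ha' : AllMg (TB.mir T) h := by
    intro u v
    obtain ⟨n, U, B, x, h1, h2⟩ := ha u v
    exact nosplit hN hf.mir hh h1.mir h2.mir
  obtain ⟨n1, U1, B1, x1, h1⟩ := colFull hN hf hh c ha
  obtain ⟨n2, U2, B2, x2, h2⟩ := colFull hN hf.mir hh c ha'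
  obtain ⟨B0, h0⟩ := stripTop hN hf (2 ^ D) le_rfl h x1 x2 (fun _ => c)
  exact ⟨_, _, _, fun L R => glueH (glueH (h1 L) h0) (h2 R).unmir⟩

lemma stackFull (hf : AllFill T N) (k : ℕ) :
    ∀ L R B U : ℕ → Fin D, Fill T N ((k + 1) * N) L R B U := by
  induction k with
  | zero => intro L R B U; rw [zero_add, one_mul]; exact hf L R B U
  | succ k ih =>
    intro L R B U
    rw [show (k + 1 + 1) * N = (k + 1) * N + N by ring]
    exact (glueV (ih L R B U) (hf (fun y => L ((k + 1) * N + y)) (fun y => R ((k + 1) * N + y))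
      U U)).congr (fun y _ => cat_shift _ L y) (fun y _ => cat_shift _ R y) (fun _ _ => rfl)
      (fun _ _ => rfl)

lemma allMg_mul (hf : AllFill T N) (k : ℕ) : AllMg T ((k + 1) * N) :=
  fun u v => ⟨N, u, u, u, stackFull hf k u u u u, stackFull hf k v u u u⟩

/-- number of types -/
def K (D : ℕ) : ℕ := 2 ^ (D * (D * (2 ^ (D ^ 2 ^ D) * 2 ^ (D ^ 2 ^ D))))

theorem exists_height (hN : 1 ≤ N) (hf : AllFill T N) (c : Fin D) :
    ∃ m ≤ K D, AllMg T (m * 2 ^ D + 2 ^ D) := by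
  by_contra hc
  push Not at hc
  have hcard : Fintype.card (Finset (Fin D × Fin D × Finset (Fin (2 ^ D) → Fin D) ×
      Finset (Fin (2 ^ D) → Fin D))) < Fintype.card (Fin (K D + 1)) := by
    rw [Fintype.card_fin, Fintype.card_finset, Fintype.card_prod, Fintype.card_prod,
      Fintype.card_prod, Fintype.card_finset, Fintype.card_fun, Fintype.card_fin,
      Fintype.card_fin]
    exact Nat.lt_succ_self _
  obtain ⟨a', b', hne', heq'⟩ :=
    Fintype.exists_ne_map_eq_of_card_lt (fun m : Fin (K D + 1) => del T c m.val) hcard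
  obtain ⟨a, b, hab, hbp, heq⟩ : ∃ a b, a < b ∧ b ≤ K D ∧ del T c a = del T c b := by
    rcases lt_or_gt_of_ne (fun h => hne' (Fin.ext h) : a'.val ≠ b'.val) with h | h
    · exact ⟨a', b', h, by omega, heq'⟩
    · exact ⟨b', a', h, by omega, heq'.symm⟩
  have hiso : ∀ i : ℕ, ∃ θ, Iso T ((a + i) * 2 ^ D + 2 ^ D) ((b + i) * 2 ^ D + 2 ^ D) θ := by
    intro i
    induction i with
    | zero => exact ⟨_, iso_of_del hN hf c a b heq⟩
    | succ i ih =>
      obtain ⟨θ, hθ⟩ := ih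
      obtain ⟨θ', hθ'⟩ := iso_step hN hf (by omega) (by omega) (le_refl (2 ^ D)) hθ
      refine ⟨θ', ?_⟩
      rw [show (a + (i + 1)) * 2 ^ D + 2 ^ D = (a + i) * 2 ^ D + 2 ^ D + 2 ^ D by ring,
        show (b + (i + 1)) * 2 ^ D + 2 ^ D = (b + i) * 2 ^ D + 2 ^ D + 2 ^ D by ring]
      exact hθ'
  have hall : ∀ m, ¬ AllMg T (m * 2 ^ D + 2 ^ D) := by
    intro m
    induction m using Nat.strong_induction_on with
    | _ m ih =>
      by_cases hm : m ≤ K D
      · exact hc m hm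
      · intro hA
        obtain ⟨i, rfl⟩ : ∃ i, m = b + i := ⟨m - b, by omega⟩
        obtain ⟨θ, hθ⟩ := hiso i
        exact ih (a + i) (by omega) (iso_all hθ hA)
  apply hall (N - 1)
  obtain ⟨M, rfl⟩ : ∃ M, N = M + 1 := ⟨N - 1, by omega⟩
  obtain ⟨e, he⟩ : ∃ e, 2 ^ D = e + 1 := ⟨2 ^ D - 1, by
    have : 1 ≤ 2 ^ D := Nat.one_le_two_pow
    omega⟩
  have h1 := allMg_mul hf e
  have h2 : (e + 1) * (M + 1) = (M + 1 - 1) * 2 ^ D + 2 ^ D := by
    rw [he, Nat.add_sub_cancel]; ring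
  rw [h2] at h1
  exact h1

/-- the height used in the bound -/
def Hb (D : ℕ) : ℕ := (K D + 1) * 2 ^ D

theorem tile_bound (hD : 1 ≤ D) (h : IsNormal (tens T)) :
    injIndex (tens T) ≤ 2 ^ (D ^ (2 * Hb D)) + Hb D + 2 * 2 ^ D := by
  obtain ⟨N, hN, hf⟩ := allFill_of_normal h
  obtain ⟨m, hm, hA⟩ := exists_height hN hf ⟨0, hD⟩
  obtain ⟨p, ys, zs, hs⟩ := free_of_allMg hN hf (by omega) ⟨0, hD⟩ hA
  have h1 := explicit_bound h hD p (m * 2 ^ D + 2 ^ D) (by omega) ys zs hs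
  have h2 : m * 2 ^ D + 2 ^ D ≤ Hb D := by
    unfold Hb
    have : m * 2 ^ D ≤ K D * 2 ^ D := Nat.mul_le_mul_right _ hm
    calc m * 2 ^ D + 2 ^ D ≤ K D * 2 ^ D + 2 ^ D := by omega
      _ = (K D + 1) * 2 ^ D := by ring
  have h3 : 2 ^ (D ^ (2 * (m * 2 ^ D + 2 ^ D))) ≤ 2 ^ (D ^ (2 * Hb D)) :=
    Nat.pow_le_pow_right (by norm_num) (Nat.pow_le_pow_right hD (by omega))
  omega

end Pool.Agent.TH137.TB
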