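import Pool.Agent.TH137.TB.Free

set_option autoImplicit false

open Finset

namespace Pool.Agent.TH137.TB

open Pool.Agent.Results.MP_a2a8ea_mp.ExpLower

variable {d D : ℕ}

/-- the physical vector of the virtual configuration `q = (left, right, up, down)` -/
def vec (A : Tensor d D) (q : Tile D) : Fin d → ℂ := fun p => A p q.1 q.2.1 q.2.2.1 q.2.2.2

/-- the nonzero physical vectors of the virtual configurations are linearly independent -/
def CoordKernel (A : Tensor d D) : Prop :=
  LinearIndependent ℂ (fun q : {q : Tile D // vec A q ≠ 0} => vec A q.1)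

def Supp (A : Tensor d D) : Fin D → Fin D → Fin D → Fin D → Prop :=
  fun l r u b => vec A (l, r, u, b) ≠ 0

lemma valid_of_weight {A : Tensor d D} {n : ℕ} (s : Fin n → Fin n → Fin d) (e : Edges D n)
    (h : weight A s e ≠ 0) : Valid (Supp A) e := by
  intro i j h0
  apply h
  unfold weight
  apply Finset.prod_eq_zero (Finset.mem_univ i)
  apply Finset.prod_eq_zero (Finset.mem_univ j)
  exact congrFun h0 (s i j)

lemma fillable_of_inj {A : Tensor d D} {n : ℕ} (hi : InjectiveSquare A n) (b : Bdry D n) :
    Fillable (Supp A) n b := by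
  classical
  by_contra h
  have h1 : Gam A n (Pi.single b 1) = Gam A n 0 := by
    rw [map_zero]
    funext s
    change ∑ e : Edges D n, (Pi.single b 1 : Bdry D n → ℂ) (bd e) * weight A s e = 0
    apply Finset.sum_eq_zero
    intro e _
    by_cases hb : bd e = b
    · have : weight A s e = 0 := by
        by_contra hw
        exact h ⟨e, hb, valid_of_weight s e hw⟩
      rw [this, mul_zero]
    · rw [Pi.single_eq_of_ne hb, zero_mul]
  have h2 := congrFun (hi h1) b
  simp at h2

lemma exists_dual {A : Tensor d D} (h : CoordKernel A) :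
    ∃ f : Tile D → Fin d → ℂ, ∀ q q', vec A q ≠ 0 →
      ∑ p, f q p * vec A q' p = if q' = q then 1 else 0 := by
  classical
  obtain ⟨g, hg⟩ := LinearMap.exists_leftInverse_of_injective
    (Finsupp.linearCombination ℂ (fun q : {q : Tile D // vec A q ≠ 0} => vec A q.1))
    (by rw [LinearMap.ker_eq_bot]; exact h)
  refine ⟨fun q p => if hq : vec A q ≠ 0 then g (fun j => if p = j then 1 else 0) ⟨q, hq⟩ else 0,
    ?_⟩
  intro q q' hq
  have hsum : ∑ p, (if hq : vec A q ≠ 0 then g (fun j => if p = j then 1 else 0) ⟨q, hq⟩ else 0)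
      * vec A q' p = (g (vec A q')) ⟨q, hq⟩ := by
    have h1 := LinearMap.pi_apply_eq_sum_univ g (vec A q')
    rw [h1, Finsupp.finset_sum_apply]
    apply Finset.sum_congr rfl
    intro p _
    rw [dif_pos hq, Finsupp.smul_apply, smul_eq_mul, mul_comm]
  rw [hsum]
  by_cases hq' : vec A q' = 0
  · rw [hq', map_zero, Finsupp.zero_apply, if_neg]
    rintro rfl
    exact hq hq'
  · have h2 : g (vec A q') = Finsupp.single ⟨q', hq'⟩ 1 := by
      have := congrFun (congrArg DFunLike.coe hg) (Finsupp.single ⟨q', hq'⟩ 1)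
      simpa using this
    rw [h2, Finsupp.single_apply]
    simp only [Subtype.mk.injEq]

lemma inj_of_fillable' {A : Tensor d D} (hA : CoordKernel A) {n : ℕ} (hn : 1 ≤ n)
    (h : ∀ b, Fillable (Supp A) n b) : InjectiveSquare A n := by
  classical
  unfold InjectiveSquare
  rw [← LinearMap.ker_eq_bot, LinearMap.ker_eq_bot']
  intro X hX
  funext b
  obtain ⟨e, hb, hv⟩ := h b
  obtain ⟨f, hf⟩ := exists_dual hA
  let tl : Edges D n → Fin n → Fin n → Tile D := fun e i j =>
    (e.1 i.castSucc j, e.1 i.succ j, e.2 i j.succ, e.2 i j.castSucc)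
  have h1 : ∑ s : Fin n → Fin n → Fin d, (∏ i, ∏ j, f (tl e i j) (s i j)) * Gam A n X s = 0 := by
    rw [hX]
    simp
  have h2 : ∑ s : Fin n → Fin n → Fin d, (∏ i, ∏ j, f (tl e i j) (s i j)) * Gam A n X s
      = ∑ e' : Edges D n, X (bd e') * ∏ i, ∏ j, (if tl e' i j = tl e i j then (1 : ℂ) else 0) := by
    have e1 : ∀ s : Fin n → Fin n → Fin d, (∏ i, ∏ j, f (tl e i j) (s i j)) * Gam A n X s
        = ∑ e' : Edges D n, X (bd e') * ∏ i, ∏ j, (f (tl e i j) (s i j) * vec A (tl e' i j) (s i j)) := by
      intro s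
      change (∏ i, ∏ j, f (tl e i j) (s i j)) * ∑ e' : Edges D n, X (bd e') * weight A s e' = _
      rw [Finset.mul_sum]
      apply Finset.sum_congr rfl
      intro e' _
      have : weight A s e' = ∏ i, ∏ j, vec A (tl e' i j) (s i j) := rfl
      rw [this]
      simp only [Finset.prod_mul_distrib]
      ring
    rw [Finset.sum_congr rfl (fun s _ => e1 s), Finset.sum_comm]
    apply Finset.sum_congr rfl
    intro e' _
    rw [← Finset.mul_sum]
    congr 1
    have e2 : ∀ i : Fin n, ∏ j, (if tl e' i j = tl e i j then (1 : ℂ) else 0)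
        = ∑ t : Fin n → Fin d, ∏ j, (f (tl e i j) (t j) * vec A (tl e' i j) (t j)) := by
      intro i
      have : ∀ j : Fin n, (if tl e' i j = tl e i j then (1 : ℂ) else 0)
          = ∑ p, f (tl e i j) p * vec A (tl e' i j) p := fun j =>
        (hf (tl e i j) (tl e' i j) (hv i j)).symm
      rw [Finset.prod_congr rfl (fun j _ => this j), Finset.prod_univ_sum]
      rw [Fintype.piFinset_univ]
    rw [Finset.prod_congr rfl (fun i _ => e2 i), Finset.prod_univ_sum, Fintype.piFinset_univ]
  rw [h2] at h1
  rw [Finset.sum_eq_single e] at h1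
  · simp only [if_true, Finset.prod_const_one, mul_one] at h1
    rw [hb] at h1
    exact h1
  · intro e' _ hne
    have : ∃ i j, tl e' i j ≠ tl e i j := by
      by_contra hc
      push Not at hc
      exact hne (edges_ext hn e' e (fun i j => congrArg (q D) (hc i j)))
    obtain ⟨i, j, hij⟩ := this
    rw [Finset.prod_eq_zero (Finset.mem_univ i), mul_zero]
    rw [Finset.prod_eq_zero (Finset.mem_univ j)]
    rw [if_neg hij]
  · intro hc; exact absurd (Finset.mem_univ _) hc

/-- the support of a normal tensor with coordinate kernel is a normal tile set -/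
lemma normal_supp {A : Tensor d D} (h : IsNormal A) : IsNormal (tens (Supp A)) := by
  obtain ⟨n, hn, hi⟩ := h
  exact ⟨n, hn, inj_of_fillable _ hn (fillable_of_inj hi)⟩

lemma index_eq_supp {A : Tensor d D} (hA : CoordKernel A) :
    injIndex A = injIndex (tens (Supp A)) := by
  unfold injIndex
  congr 1
  ext n
  constructor
  · rintro ⟨hn, hi⟩
    exact ⟨hn, inj_of_fillable _ hn (fillable_of_inj hi)⟩
  · rintro ⟨hn, hi⟩
    refine ⟨hn, inj_of_fillable' hA hn ?_⟩
    intro b
    by_contra hb
    exact not_inj_of_not_fillable _ b hb hi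

theorem general_bound {A : Tensor d D} (hD : 1 ≤ D) (hA : CoordKernel A) (h : IsNormal A) :
    injIndex A ≤ 2 ^ (D ^ (2 * Hb D)) + Hb D + 2 * 2 ^ D := by
  rw [index_eq_supp hA]
  exact tile_bound hD (normal_supp h)

end Pool.Agent.TH137.TB
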