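import Pool.Agent.TH137.TB.Merge

set_option autoImplicit false

open Finset

namespace Pool.Agent.TH137.TB

open Pool.Agent.Results.MP_a2a8ea_mp.ExpLower

variable {D : ℕ} {T : Fin D → Fin D → Fin D → Fin D → Prop} {N : ℕ}

lemma splitV {w a c : ℕ} {L R B U : ℕ → Fin D} (h : Fill T w (a + c) L R B U) :
    ∃ M, Fill T w a L R B M ∧ Fill T w c (fun y => L (a + y)) (fun y => R (a + y)) M U := by
  obtain ⟨M, h1, h2⟩ := splitH h.tr
  exact ⟨M, h1.untr, h2.untr⟩

lemma cat_low (h : ℕ) (u x : ℕ → Fin D) (y : ℕ) (hy : y < h) : cat h u x y = u y := by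
  unfold cat; simp [hy]

lemma cat_up (h : ℕ) (u x : ℕ → Fin D) (y : ℕ) : cat h u x (h + y) = x y := by
  unfold cat; simp

lemma Mg.congr {h : ℕ} {u v u' v' : ℕ → Fin D} (H : Mg T h u v) (hu : ∀ y < h, u y = u' y)
    (hv : ∀ y < h, v y = v' y) : Mg T h u' v' := by
  obtain ⟨n, U, B, x, h1, h2⟩ := H
  exact ⟨n, U, B, x, h1.congr hu (fun _ _ => rfl) (fun _ _ => rfl) (fun _ _ => rfl),
    h2.congr hv (fun _ _ => rfl) (fun _ _ => rfl) (fun _ _ => rfl)⟩

def AllMg (T : Fin D → Fin D → Fin D → Fin D → Prop) (h : ℕ) : Prop := ∀ u v, Mg T h u v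

structure Iso (T : Fin D → Fin D → Fin D → Fin D → Prop) (h h' : ℕ)
    (θ : (ℕ → Fin D) → (ℕ → Fin D) → Prop) : Prop where
  tot : ∀ u, ∃ v, θ u v
  tot' : ∀ v, ∃ u, θ u v
  mg : ∀ u u' v v', θ u v → θ u' v' → (Mg T h u u' ↔ Mg T h' v v')
  step : ∀ (n : ℕ) (u u' v v' B U : ℕ → Fin D), θ u v → Fill T n h u u' B U →
    Fill T n h' v v' B U → θ u' v'

lemma Iso.symm {h h' : ℕ} {θ : (ℕ → Fin D) → (ℕ → Fin D) → Prop} (H : Iso T h h' θ) :
    Iso T h' h (fun v u => θ u v) :=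
  ⟨H.tot', H.tot, fun u u' v v' h1 h2 => (H.mg v v' u u' h1 h2).symm,
    fun n u u' v v' B U h1 h2 h3 => H.step n v v' u u' B U h1 h3 h2⟩

lemma transfer (hN : 1 ≤ N) (hf : AllFill T N) {h h' a : ℕ} (hh : 2 ^ D ≤ h) (hh' : 2 ^ D ≤ h')
    (ha : 2 ^ D ≤ a) {θ : (ℕ → Fin D) → (ℕ → Fin D) → Prop} (H : Iso T h h' θ)
    {u v u' v' x x' : ℕ → Fin D} (h1 : θ u v) (h2 : θ u' v')
    (hm : Mg T (h + a) (cat h u x) (cat h u' x')) :
    Mg T (h' + a) (cat h' v x) (cat h' v' x') := by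
  obtain ⟨n, U, B, s, f1, f2⟩ := hm
  obtain ⟨Y, g1, g2⟩ := splitV f1
  obtain ⟨Y', g1', g2'⟩ := splitV f2
  replace g1 : Fill T n h u s B Y := g1.congr (fun y hy => cat_low h u x y hy) (fun _ _ => rfl)
    (fun _ _ => rfl) (fun _ _ => rfl)
  replace g1' : Fill T n h u' s B Y' := g1'.congr (fun y hy => cat_low h u' x' y hy)
    (fun _ _ => rfl) (fun _ _ => rfl) (fun _ _ => rfl)
  replace g2 : Fill T n a x (fun y => s (h + y)) Y U := g2.congr (fun y _ => cat_up h u x y)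
    (fun _ _ => rfl) (fun _ _ => rfl) (fun _ _ => rfl)
  replace g2' : Fill T n a x' (fun y => s (h + y)) Y' U := g2'.congr
    (fun y _ => cat_up h u' x' y) (fun _ _ => rfl) (fun _ _ => rfl) (fun _ _ => rfl)
  obtain ⟨w, hw⟩ := colRight hN hf h' hh' n v B Y
  obtain ⟨w', hw'⟩ := colRight hN hf h' hh' n v' B Y'
  have t1 : θ s w := H.step n u s v w B Y h1 g1 hw
  have t2 : θ s w' := H.step n u' s v' w' B Y' h2 g1' hw'
  have t3 : Mg T h' w w' := (H.mg s s w w' t1 t2).mp (Mg.rfl' hN hf hh s s (fun _ _ => rfl))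
  obtain ⟨n2, Y2, B2, w2, k1, k2⟩ := t3
  obtain ⟨x2, hx2⟩ := colRight hN hf a ha n2 (fun y => s (h + y)) Y2 Y2
  exact ⟨n + n2, _, _, _, glueH (glueV hw g2) (glueV k1 hx2), glueH (glueV hw' g2') (glueV k2 hx2)⟩

lemma iso_step (hN : 1 ≤ N) (hf : AllFill T N) {h h' a : ℕ} (hh : 2 ^ D ≤ h) (hh' : 2 ^ D ≤ h')
    (ha : 2 ^ D ≤ a) {θ : (ℕ → Fin D) → (ℕ → Fin D) → Prop} (H : Iso T h h' θ) :
    ∃ θ', Iso T (h + a) (h' + a) θ' := by
  have hha : 2 ^ D ≤ h + a := by omega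
  have hha' : 2 ^ D ≤ h' + a := by omega
  have cs : ∀ (k : ℕ) (v z : ℕ → Fin D), (∀ y < k, v y = z y) → ∀ y,
      cat k v (fun y => z (k + y)) y = z y := by
    intro k v z hv y
    unfold cat
    split_ifs with hy
    · exact hv y hy
    · show z (k + (y - k)) = z y
      rw [show k + (y - k) = y by omega]
  refine ⟨fun z z' => ∃ u2 v2, θ u2 v2 ∧ (∀ y < h', v2 y = z' y) ∧
    Mg T (h + a) z (cat h u2 (fun y => z' (h' + y))), ?_, ?_, ?_, ?_⟩
  · intro z
    obtain ⟨v, hv⟩ := H.tot z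
    refine ⟨cat h' v (fun y => z (h + y)), z, v, hv, fun y hy => (cat_low _ _ _ y hy).symm, ?_⟩
    apply Mg.rfl' hN hf hha
    intro y _
    simp only [cat_up]
    exact (cat_shift h z y).symm
  · intro z'
    obtain ⟨u, hu⟩ := H.tot' z'
    exact ⟨cat h u (fun y => z' (h' + y)), u, z', hu, fun _ _ => rfl,
      Mg.rfl' hN hf hha _ _ (fun _ _ => rfl)⟩
  · rintro z1 z2 z1' z2' ⟨u1, v1, t1, e1, m1⟩ ⟨u2, v2, t2, e2, m2⟩
    constructor
    · intro hz
      have k1 : Mg T (h + a) (cat h u1 (fun y => z1' (h' + y))) (cat h u2 (fun y => z2' (h' + y))) :=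
        (m1.symm.trans' hN hf hha hz).trans' hN hf hha m2
      have k2 := transfer hN hf hh hh' ha H t1 t2 k1
      exact k2.congr (fun y _ => cs h' v1 z1' e1 y) (fun y _ => cs h' v2 z2' e2 y)
    · intro hz
      have k1 : Mg T (h' + a) (cat h' v1 (fun y => z1' (h' + y)))
          (cat h' v2 (fun y => z2' (h' + y))) :=
        hz.congr (fun y _ => (cs h' v1 z1' e1 y).symm) (fun y _ => (cs h' v2 z2' e2 y).symm)
      have k2 := transfer hN hf hh' hh ha H.symm t1 t2 k1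
      exact (m1.trans' hN hf hha k2).trans' hN hf hha m2.symm
  · rintro n z z2 z' z2' B U ⟨u1, v1, t1, e1, m1⟩ f1 f2
    obtain ⟨Y, g1, g2⟩ := splitV f2
    have g1' : Fill T n h' v1 z2' B Y := g1.congr (fun y hy => (e1 y hy).symm) (fun _ _ => rfl)
      (fun _ _ => rfl) (fun _ _ => rfl)
    obtain ⟨w, hw⟩ := colRight hN hf h hh n u1 B Y
    have t2 : θ w z2' := H.step n u1 w v1 z2' B Y t1 hw g1'
    exact ⟨w, z2', t2, fun _ _ => rfl, m1.desc hN hf hha f1 (glueV hw g2)⟩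

lemma iso_all {h h' : ℕ} {θ : (ℕ → Fin D) → (ℕ → Fin D) → Prop} (H : Iso T h h' θ)
    (ha : AllMg T h') : AllMg T h := by
  intro u u'
  obtain ⟨v, hv⟩ := H.tot u
  obtain ⟨v', hv'⟩ := H.tot u'
  exact (H.mg u u' v v' hv hv').mpr (ha v v')

/-! ### labels -/

open Classical in
noncomputable def lab (T : Fin D → Fin D → Fin D → Fin D → Prop) (c : Fin D) (m : ℕ)
    (z : ℕ → Fin D) : Finset (Fin (2 ^ D) → Fin D) :=
  univ.filter (fun x => Mg T (m * 2 ^ D + 2 ^ D) (cat (m * 2 ^ D) (fun _ => c) (ext c x)) z)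

lemma lab_ne (hN : 1 ≤ N) (hf : AllFill T N) (c : Fin D) (m : ℕ) (z : ℕ → Fin D) :
    ∃ x, x ∈ lab T c m z := by
  obtain ⟨Y1, hY1⟩ := stripBot hN hf (2 ^ D) le_rfl (m * 2 ^ D) (fun _ => c) (fun _ => c)
    (fun _ => c)
  obtain ⟨Y2, hY2⟩ := stripBot hN hf (2 ^ D) le_rfl (m * 2 ^ D) (fun _ => c) z (fun _ => c)
  obtain ⟨U, hU⟩ := stripBot hN hf (2 ^ D) le_rfl (2 ^ D) (fun _ => c)
    (fun y => z (m * 2 ^ D + y)) Y2
  obtain ⟨x, hx⟩ := colRight hN hf (2 ^ D) le_rfl (2 ^ D) (fun _ => c) Y1 U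
  have h1 := nosplit hN hf (by omega) (glueV hY1 hx) (glueV hY2 hU)
  refine ⟨fun i => x i, ?_⟩
  classical
  unfold lab
  simp only [mem_filter, mem_univ, true_and]
  refine h1.congr ?_ (fun y _ => cat_shift _ z y)
  intro y hy
  unfold cat
  split_ifs with h
  · rfl
  · exact (ext_res c x _ (by omega)).symm

lemma lab_iff (hN : 1 ≤ N) (hf : AllFill T N) (c : Fin D) (m : ℕ) (z z' : ℕ → Fin D) :
    Mg T (m * 2 ^ D + 2 ^ D) z z' ↔ lab T c m z = lab T c m z' := by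
  have hh : 2 ^ D ≤ m * 2 ^ D + 2 ^ D := by omega
  classical
  constructor
  · intro H
    unfold lab
    apply Finset.filter_congr
    intro x _
    exact ⟨fun h => h.trans' hN hf hh H, fun h => h.trans' hN hf hh H.symm⟩
  · intro H
    obtain ⟨x, hx⟩ := lab_ne hN hf c m z
    have hx' := hx
    rw [H] at hx'
    unfold lab at hx hx'
    simp only [mem_filter, mem_univ, true_and] at hx hx'
    exact hx.symm.trans' hN hf hh hx'

open Classical in
noncomputable def del (T : Fin D → Fin D → Fin D → Fin D → Prop) (c : Fin D) (m : ℕ) :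
    Finset (Fin D × Fin D × Finset (Fin (2 ^ D) → Fin D) × Finset (Fin (2 ^ D) → Fin D)) :=
  univ.filter (fun q => ∃ z z', Fill T 1 (m * 2 ^ D + 2 ^ D) z z' (fun _ => q.1) (fun _ => q.2.1) ∧
    lab T c m z = q.2.2.1 ∧ lab T c m z' = q.2.2.2)

lemma mem_del {c : Fin D} {m : ℕ} {b t : Fin D} {l l' : Finset (Fin (2 ^ D) → Fin D)} :
    (b, t, l, l') ∈ del T c m ↔ ∃ z z', Fill T 1 (m * 2 ^ D + 2 ^ D) z z' (fun _ => b)
      (fun _ => t) ∧ lab T c m z = l ∧ lab T c m z' = l' := by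
  classical
  unfold del
  simp only [mem_filter, mem_univ, true_and]

lemma iso_of_del (hN : 1 ≤ N) (hf : AllFill T N) (c : Fin D) (m m' : ℕ)
    (h : del T c m = del T c m') :
    Iso T (m * 2 ^ D + 2 ^ D) (m' * 2 ^ D + 2 ^ D) (fun z z' => lab T c m z = lab T c m' z') := by
  have tot : ∀ m m' : ℕ, del T c m = del T c m' → ∀ u, ∃ v, lab T c m u = lab T c m' v := by
    intro m m' h u
    obtain ⟨z2, hz2⟩ := colRight hN hf (m * 2 ^ D + 2 ^ D) (by omega) 1 u (fun _ => c) (fun _ => c)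
    have h1 : (c, c, lab T c m u, lab T c m z2) ∈ del T c m := mem_del.mpr ⟨u, z2, hz2, rfl, rfl⟩
    rw [h] at h1
    obtain ⟨y, _, _, h2, _⟩ := mem_del.mp h1
    exact ⟨y, h2.symm⟩
  refine ⟨tot m m' h, ?_, ?_, ?_⟩
  · intro v
    obtain ⟨u, hu⟩ := tot m' m h.symm v
    exact ⟨u, hu.symm⟩
  · intro u u' v v' h1 h2
    rw [lab_iff hN hf c m, lab_iff hN hf c m', h1, h2]
  · intro n
    induction n with
    | zero =>
      intro u u' v v' B U h1 h2 h3
      have e : ∀ (k : ℕ) (p q : ℕ → Fin D), Fill T 0 k p q B U → ∀ y < k, p y = q y := by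
        rintro k p q ⟨H, V, a1, a2, _⟩ y hy
        rw [← a1 y hy, ← a2 y hy]
      have e1 : lab T c m u = lab T c m u' := (lab_iff hN hf c m u u').mp
        (Mg.rfl' hN hf (by omega) _ _ (e _ _ _ h2))
      have e2 : lab T c m' v = lab T c m' v' := (lab_iff hN hf c m' v v').mp
        (Mg.rfl' hN hf (by omega) _ _ (e _ _ _ h3))
      rw [← e1, h1, e2]
    | succ n ih =>
      intro u u' v v' B U h1 h2 h3
      obtain ⟨M, a1, a2⟩ := splitH h2
      obtain ⟨M', b1, b2⟩ := splitH h3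
      have h4 : lab T c m M = lab T c m' M' := ih u M v M' B U h1 a1 b1
      have a3 : Fill T 1 (m * 2 ^ D + 2 ^ D) M u' (fun _ => B n) (fun _ => U n) :=
        a2.congr (fun _ _ => rfl) (fun _ _ => rfl)
          (fun x hx => by obtain rfl : x = 0 := by omega
                          rfl)
          (fun x hx => by obtain rfl : x = 0 := by omega
                          rfl)
      have b3 : Fill T 1 (m' * 2 ^ D + 2 ^ D) M' v' (fun _ => B n) (fun _ => U n) :=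
        b2.congr (fun _ _ => rfl) (fun _ _ => rfl)
          (fun x hx => by obtain rfl : x = 0 := by omega
                          rfl)
          (fun x hx => by obtain rfl : x = 0 := by omega
                          rfl)
      have h5 : (B n, U n, lab T c m M, lab T c m u') ∈ del T c m :=
        mem_del.mpr ⟨M, u', a3, rfl, rfl⟩
      rw [h] at h5
      obtain ⟨y, y2, f, g1, g2⟩ := mem_del.mp h5
      have h6 : Mg T (m' * 2 ^ D + 2 ^ D) y M' := (lab_iff hN hf c m' y M').mpr (by rw [g1, h4])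
      have h7 := h6.desc hN hf (by omega) f b3
      rw [← g2]
      exact (lab_iff hN hf c m' y2 v').mp h7

end Pool.Agent.TH137.TB
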