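import Pool.Agent.TH137.TB.Conv

set_option autoImplicit false

open Finset

namespace Pool.Agent.TH137.TB

open Pool.Agent.Results.MP_a2a8ea_mp.ExpLower

variable {D : ℕ}

/-- words `u`, `v` of height `h` can be brought to a common word by one strip -/
def Mg (T : Fin D → Fin D → Fin D → Fin D → Prop) (h : ℕ) (u v : ℕ → Fin D) : Prop :=
  ∃ (n : ℕ) (U B x : ℕ → Fin D), Fill T n h u x B U ∧ Fill T n h v x B U

variable {T : Fin D → Fin D → Fin D → Fin D → Prop} {N : ℕ}

lemma Mg.symm {h : ℕ} {u v : ℕ → Fin D} (H : Mg T h u v) : Mg T h v u := by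
  obtain ⟨n, U, B, x, h1, h2⟩ := H
  exact ⟨n, U, B, x, h2, h1⟩

/-- mergeable descendants come from mergeable words -/
lemma Mg.anc {h n : ℕ} {u v u' v' B U : ℕ → Fin D} (hu : Fill T n h u u' B U)
    (hv : Fill T n h v v' B U) (H : Mg T h u' v') : Mg T h u v := by
  obtain ⟨m, U2, B2, x, h1, h2⟩ := H
  exact ⟨n + m, _, _, x, glueH hu h1, glueH hv h2⟩

lemma Mg.rfl' (hN : 1 ≤ N) (hf : AllFill T N) {h : ℕ} (hh : 2 ^ D ≤ h) (u v : ℕ → Fin D)
    (huv : ∀ y < h, u y = v y) : Mg T h u v := by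
  obtain ⟨R, hR⟩ := colRight hN hf h hh 1 u u u
  exact ⟨1, u, u, R, hR, hR.congr huv (fun _ _ => rfl) (fun _ _ => rfl) (fun _ _ => rfl)⟩

/-- cliques of pairwise unmergeable words -/
def Cl (T : Fin D → Fin D → Fin D → Fin D → Prop) (h r : ℕ) : Prop :=
  ∃ k : Fin r → (ℕ → Fin D), ∀ i j, i ≠ j → ¬ Mg T h (k i) (k j)

lemma Cl_bound (hN : 1 ≤ N) (hf : AllFill T N) {h : ℕ} (hh : 2 ^ D ≤ h) (r : ℕ)
    (hr : Cl T h r) : r ≤ D ^ h := by
  obtain ⟨k, hk⟩ := hr
  have hinj : Function.Injective (fun (i : Fin r) => (fun y : Fin h => k i y)) := by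
    intro i j hij
    by_contra hne
    exact hk i j hne (Mg.rfl' hN hf hh _ _ (fun y hy => congrFun hij ⟨y, hy⟩))
  have := Fintype.card_le_of_injective _ hinj
  simpa using this

lemma exists_max (hN : 1 ≤ N) (hf : AllFill T N) {h : ℕ} (hh : 2 ^ D ≤ h) (c : Fin D) :
    ∃ s, Cl T h (s + 1) ∧ ¬ Cl T h (s + 2) := by
  by_contra hc
  push Not at hc
  have : ∀ s, Cl T h (s + 1) := by
    intro s
    induction s with
    | zero => exact ⟨fun _ _ => c, fun i j hij => absurd (Fin.ext (by omega)) hij⟩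
    | succ s ih => exact hc s ih
  have := Cl_bound hN hf hh _ (this (D ^ h))
  omega

lemma cons_cl {h s : ℕ} (k : Fin (s + 1) → (ℕ → Fin D))
    (hk : ∀ i j, i ≠ j → ¬ Mg T h (k i) (k j)) (y : ℕ → Fin D)
    (hy : ∀ i, ¬ Mg T h y (k i)) : Cl T h (s + 2) := by
  refine ⟨Fin.cons y k, ?_⟩
  intro i j hij hm
  rcases Fin.eq_zero_or_eq_succ i with rfl | ⟨i', rfl⟩ <;>
    rcases Fin.eq_zero_or_eq_succ j with rfl | ⟨j', rfl⟩
  · exact hij rfl
  · rw [Fin.cons_zero, Fin.cons_succ] at hm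
    exact hy j' hm
  · rw [Fin.cons_zero, Fin.cons_succ] at hm
    exact hy i' hm.symm
  · rw [Fin.cons_succ, Fin.cons_succ] at hm
    exact hk i' j' (fun h => hij (by rw [h])) hm

/-- move a clique so that it starts with a given word -/
lemma clique_at (hN : 1 ≤ N) (hf : AllFill T N) {h : ℕ} (hh : 2 ^ D ≤ h) {s : ℕ}
    (hs : Cl T h (s + 1)) (b : ℕ → Fin D) :
    ∃ k : Fin (s + 1) → (ℕ → Fin D), k 0 = b ∧ ∀ i j, i ≠ j → ¬ Mg T h (k i) (k j) := by
  obtain ⟨k, hk⟩ := hs
  obtain ⟨B0, hB0⟩ := stripTop hN hf (2 ^ D) le_rfl h (k 0) b b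
  have hc : ∀ i : Fin (s + 1), ∃ v, Fill T (2 ^ D) h (k i) v B0 b := fun i =>
    colRight hN hf h hh _ _ _ _
  choose v hv using hc
  classical
  refine ⟨fun i => if i = 0 then b else v i, by simp, ?_⟩
  have hall : ∀ i, Fill T (2 ^ D) h (k i) (if i = 0 then b else v i) B0 b := by
    intro i
    by_cases hi : i = 0
    · subst hi; simpa using hB0
    · simp only [hi, if_false]; exact hv i
  intro i j hij hm
  exact hk i j hij (Mg.anc (hall i) (hall j) hm)

/-- no word splits into unmergeable words -/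
lemma nosplit (hN : 1 ≤ N) (hf : AllFill T N) {h : ℕ} (hh : 2 ^ D ≤ h) {n : ℕ}
    {b x y B U : ℕ → Fin D} (hx : Fill T n h b x B U) (hy : Fill T n h b y B U) :
    Mg T h x y := by
  by_contra hc
  obtain ⟨s, hs1, hs2⟩ := exists_max hN hf hh (b 0)
  obtain ⟨k, hk0, hk⟩ := clique_at hN hf hh hs1 b
  apply hs2
  have hv : ∀ i : Fin (s + 1), ∃ v, Fill T n h (k i) v B U := fun i => colRight hN hf h hh _ _ _ _
  choose v hv using hv
  classical
  have hall : ∀ i, Fill T n h (k i) (if i = 0 then y else v i) B U := by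
    intro i
    by_cases hi : i = 0
    · subst hi; rw [hk0]; simpa using hy
    · simp only [hi, if_false]; exact hv i
  refine cons_cl (fun i => if i = 0 then y else v i) ?_ x ?_
  · intro i j hij hm
    exact hk i j hij (Mg.anc (hall i) (hall j) hm)
  · intro j hm
    by_cases hj : j = 0
    · subst hj; simp only [if_true] at hm; exact hc hm
    · refine hk 0 j (Ne.symm hj) (Mg.anc ?_ (hall j) hm)
      rw [hk0]; exact hx

/-- one more unmergeable word than a maximal clique: impossible -/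
lemma no_two {h : ℕ} {s : ℕ}
    (hs2 : ¬ Cl T h (s + 2)) (k : Fin (s + 1) → (ℕ → Fin D))
    (hk : ∀ i j, i ≠ j → ¬ Mg T h (k i) (k j)) (y : ℕ → Fin D)
    (hy : ∀ i, ¬ Mg T h y (k i)) : False := hs2 (cons_cl k hk y hy)

/-- a stable strip: two words with disjoint sets of descendants have unmergeable descendants -/
lemma exists_stable (hN : 1 ≤ N) (hf : AllFill T N) {h : ℕ} (hh : 2 ^ D ≤ h) (c : Fin D) :
    ∃ (n : ℕ) (U B : ℕ → Fin D), ∀ a b x y : ℕ → Fin D, Fill T n h a x B U →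
      Fill T n h b y B U → Mg T h x y →
      ∃ z, Fill T n h a z B U ∧ Fill T n h b z B U := by
  classical
  let G : ℕ → (ℕ → Fin D) → (ℕ → Fin D) → Finset ((Fin h → Fin D) × (Fin h → Fin D)) :=
    fun n U B => univ.filter (fun q => ∃ z, Fill T n h (ext c q.1) z B U ∧
      Fill T n h (ext c q.2) z B U)
  have hbd : ∀ n U B, (G n U B).card ≤ Fintype.card ((Fin h → Fin D) × (Fin h → Fin D)) :=
    fun n U B => Finset.card_le_univ _
  obtain ⟨m, ⟨n, U, B, hm⟩, hmax⟩ : ∃ m, (∃ n U B, (G n U B).card = m) ∧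
      ∀ n U B, (G n U B).card ≤ m := by
    by_contra hc
    push Not at hc
    have : ∀ t : ℕ, ∃ n U B, t ≤ (G n U B).card := by
      intro t
      induction t with
      | zero => exact ⟨0, fun _ => c, fun _ => c, Nat.zero_le _⟩
      | succ t ih =>
        obtain ⟨n, U, B, ht⟩ := ih
        obtain ⟨n', U', B', h'⟩ := hc _ ⟨n, U, B, rfl⟩
        exact ⟨n', U', B', by omega⟩
    obtain ⟨n, U, B, ht⟩ := this (Fintype.card ((Fin h → Fin D) × (Fin h → Fin D)) + 1)
    have := hbd n U B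
    omega
  refine ⟨n, U, B, ?_⟩
  intro a b x y ha hb hxy
  by_contra hc
  obtain ⟨n2, U2, B2, z, hz1, hz2⟩ := hxy
  have hsub : G n U B ⊆ G (n + n2) (cat n U U2) (cat n B B2) := by
    intro q hq
    simp only [G, mem_filter, mem_univ, true_and] at hq ⊢
    obtain ⟨w, hw1, hw2⟩ := hq
    obtain ⟨w', hw'⟩ := colRight hN hf h hh n2 w B2 U2
    exact ⟨w', glueH hw1 hw', glueH hw2 hw'⟩
  have hmem : ((fun i : Fin h => a i), (fun i : Fin h => b i)) ∈
      G (n + n2) (cat n U U2) (cat n B B2) := by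
    simp only [G, mem_filter, mem_univ, true_and]
    refine ⟨z, (glueH ha hz1).congr (fun y hy => (ext_res c a y hy).symm) (fun _ _ => rfl)
      (fun _ _ => rfl) (fun _ _ => rfl), (glueH hb hz2).congr
      (fun y hy => (ext_res c b y hy).symm) (fun _ _ => rfl) (fun _ _ => rfl) (fun _ _ => rfl)⟩
  have hnmem : ((fun i : Fin h => a i), (fun i : Fin h => b i)) ∉ G n U B := by
    intro hq
    simp only [G, mem_filter, mem_univ, true_and] at hq
    obtain ⟨w, hw1, hw2⟩ := hq
    exact hc ⟨w, hw1.congr (fun y hy => ext_res c a y hy) (fun _ _ => rfl) (fun _ _ => rfl)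
      (fun _ _ => rfl), hw2.congr (fun y hy => ext_res c b y hy) (fun _ _ => rfl)
      (fun _ _ => rfl) (fun _ _ => rfl)⟩
  have hlt : (G n U B).card < (G (n + n2) (cat n U U2) (cat n B B2)).card :=
    Finset.card_lt_card ⟨hsub, fun hh' => hnmem (hh' hmem)⟩
  have := hmax (n + n2) (cat n U U2) (cat n B B2)
  omega

/-- descendants of words with a common descendant under a stable strip are mergeable -/
lemma stable_merge (hN : 1 ≤ N) (hf : AllFill T N) {h : ℕ} (hh : 2 ^ D ≤ h) {n : ℕ}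
    {U B : ℕ → Fin D} (hst : ∀ a b x y : ℕ → Fin D, Fill T n h a x B U →
      Fill T n h b y B U → Mg T h x y → ∃ z, Fill T n h a z B U ∧ Fill T n h b z B U)
    {a b x y z : ℕ → Fin D} (hx : Fill T n h a x B U) (hy : Fill T n h b y B U)
    (hza : Fill T n h a z B U) (hzb : Fill T n h b z B U) : Mg T h x y := by
  by_contra hc
  obtain ⟨s, hs1, hs2⟩ := exists_max hN hf hh (a 0)
  obtain ⟨k, hk0, hk⟩ := clique_at hN hf hh hs1 a
  have hv : ∀ i : Fin (s + 1), ∃ v, Fill T n h (k i) v B U := fun i => colRight hN hf h hh _ _ _ _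
  choose v hv using hv
  classical
  have hall : ∀ i, Fill T n h (k i) (if i = 0 then x else v i) B U := by
    intro i
    by_cases hi : i = 0
    · subst hi; rw [hk0]; simpa using hx
    · simp only [hi, if_false]; exact hv i
  refine no_two hs2 (fun i => if i = 0 then x else v i) ?_ y ?_
  · intro i j hij hm
    exact hk i j hij (Mg.anc (hall i) (hall j) hm)
  · intro i hm
    by_cases hi : i = 0
    · subst hi; simp only [if_true] at hm; exact hc hm.symm
    · obtain ⟨z', hz1, hz2⟩ := hst b (k i) y _ hy (hall i) hm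
      have h1 : Mg T h z z' := nosplit hN hf hh hzb hz1
      refine hk 0 i (Ne.symm hi) (Mg.anc ?_ hz2 h1)
      rw [hk0]; exact hza

lemma Mg.trans' (hN : 1 ≤ N) (hf : AllFill T N) {h : ℕ} (hh : 2 ^ D ≤ h) {x y w : ℕ → Fin D}
    (h1 : Mg T h x y) (h2 : Mg T h y w) : Mg T h x w := by
  obtain ⟨n, U, B, hst⟩ := exists_stable hN hf hh (x 0)
  obtain ⟨a, ha⟩ := colLeft hN hf h hh n x B U
  obtain ⟨b, hb⟩ := colLeft hN hf h hh n y B U
  obtain ⟨c, hc⟩ := colLeft hN hf h hh n w B U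
  obtain ⟨z, hza, hzb⟩ := hst a b x y ha hb h1
  obtain ⟨z', hzb', hzc'⟩ := hst b c y w hb hc h2
  have h3 : Mg T h z z' := nosplit hN hf hh hzb hzb'
  obtain ⟨t, hta, htc⟩ := hst a c z z' hza hzc' h3
  exact stable_merge hN hf hh hst ha hc hta htc

/-- the strips act on the classes -/
lemma Mg.desc (hN : 1 ≤ N) (hf : AllFill T N) {h : ℕ} (hh : 2 ^ D ≤ h) {n : ℕ}
    {u v u' v' B U : ℕ → Fin D} (H : Mg T h u v) (hu : Fill T n h u u' B U)
    (hv : Fill T n h v v' B U) : Mg T h u' v' := by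
  by_contra hc
  obtain ⟨s, hs1, hs2⟩ := exists_max hN hf hh (u 0)
  obtain ⟨k, hk0, hk⟩ := clique_at hN hf hh hs1 u
  have hw : ∀ i : Fin (s + 1), ∃ w, Fill T n h (k i) w B U := fun i => colRight hN hf h hh _ _ _ _
  choose w hw using hw
  classical
  have hall : ∀ i, Fill T n h (k i) (if i = 0 then u' else w i) B U := by
    intro i
    by_cases hi : i = 0
    · subst hi; rw [hk0]; simpa using hu
    · simp only [hi, if_false]; exact hw i
  refine no_two hs2 (fun i => if i = 0 then u' else w i) ?_ v' ?_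
  · intro i j hij hm
    exact hk i j hij (Mg.anc (hall i) (hall j) hm)
  · intro i hm
    by_cases hi : i = 0
    · subst hi; simp only [if_true] at hm; exact hc hm.symm
    · have h1 : Mg T h v (k i) := Mg.anc hv (hall i) hm
      refine hk 0 i (Ne.symm hi) ?_
      rw [hk0]
      exact H.trans' hN hf hh h1

end Pool.Agent.TH137.TB
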